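import Pool.Agent.H10.PinB
import Pool.Agent.H10.PinE

namespace Pool.Agent.Results.MP_890668_co.Asymp

open Pool.Agent.H10.Pin Filter

theorem result (n p : ℕ) (hn : 2 ≤ n) (hp : 1 ≤ p) :
    Tendsto (fun k : ℕ => (theta (KK n k) p : ℝ) / ((k : ℝ) ^ 2 / p)) atTop (nhds 1) ∧
    Tendsto (fun k : ℕ => (theta (KM n k) p : ℝ) / ((n : ℝ) / 2 * Real.logb 2 k)) atTop
      (nhds 1) :=
  ⟨q1 n p hn hp, q2 n p hn hp⟩

end Pool.Agent.Results.MP_890668_co.Asymp
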